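import Pool.Agent.W740.Nil.Fin

set_option autoImplicit false

open MeasureTheory

namespace Pool.Agent.Results.MP_442888_an.NotWeaklyMixing

open Pool.Agent.W740.Nil

/-- There are a uniquely ergodic parabolic Heisenberg nilflow and a smooth time-change of it which
is measurably non-trivial and is not weakly mixing (and not mixing). -/
theorem result : ∃ μ : Measure Nilmanifold, IsHaarProb μ ∧
    ∃ X : ℝ × ℝ × ℝ, IsParabolic X ∧ IsUniquelyErgodic (nilflow X) μ ∧
    ∃ α : Nilmanifold → ℝ, IsSmooth α ∧ (∀ p, 0 < α p) ∧ ¬ MeasurablyTrivial (nilflow X) μ α ∧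
    ∃ ψ : ℝ → Nilmanifold → Nilmanifold, IsTimeChange (nilflow X) α ψ ∧
      (∀ p, ψ 0 p = p) ∧ (∀ s t p, ψ (s + t) p = ψ s (ψ t p)) ∧
      IsProbabilityMeasure (tcMeasure μ α) ∧
      (∀ t, MeasurePreserving (ψ t) (tcMeasure μ α) (tcMeasure μ α)) ∧
      ¬ IsWeaklyMixing ψ (tcMeasure μ α) ∧ ¬ IsMixing ψ (tcMeasure μ α) := by
  obtain ⟨D⟩ := exists_data
  refine ⟨haar, isHaarProb_haar, (1, D.θ, 0), ?_, uniquelyErgodic D.irr, D.al, D.isSmooth_al,
    D.al_pos, D.not_trivial, D.ps, D.isTimeChange_ps, D.ps_zero, fun s t p => D.ps_add p s t,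
    inferInstanceAs (IsProbabilityMeasure D.nu), D.mp_ps, D.not_weaklyMixing, D.not_mixing⟩
  refine ⟨1, ⟨0, 1, 0⟩, fun h => ?_⟩
  have h1 := congrArg Heis.z h
  simp [expX] at h1

end Pool.Agent.Results.MP_442888_an.NotWeaklyMixing
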